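import Pool.Agent.H71.AL.Targets

/-!
# Row CNJ: codes are isomorphic if and only if the sequences are conjugate
-/

set_option autoImplicit false

open Set

open Pool.Agent.AL

namespace Pool.Agent.H30.ALV

namespace CNJ

lemma dense_of_Ds {D : Set ℝ} (h : Ds D) : Dense D :=
  dense_of_exists_between fun p q hpq => h p q hpq

lemma rs_inj {h h' : ℕ → ℝ ≃ₜ ℝ} (e : rs h = rs h') : h = h' := by
  funext k
  refine Homeomorph.ext fun x => ?_
  have h1 : (h k : ℝ → ℝ) = h' k := by
    refine (Rat.isDenseEmbedding_coe_real.dense).equalizer (h k).continuous (h' k).continuous ?_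
    funext q
    exact congrFun (congrFun e k) q
  exact congrFun h1 x

lemma key (hH : T_HOM) {y : Y} {e : ℕ → ℝ} {h : ℕ → ℝ ≃ₜ ℝ} (hy : Cy y) (he : Em (lt y) e)
    (hc : Cd y (rs h) e) : (∀ k m, e (y.2 (2 * k) m) = h k (e m)) ∧
    ∀ w m, e (wd y.2 w m) = gr h w (e m) := by
  obtain ⟨h0, h1, h2, h3⟩ := hH y e hy.1 he
  have h4 := rs_inj ((h3 _).1 hc)
  rw [h4]
  exact ⟨h1, h2⟩

lemma gr_conj {h h' : ℕ → ℝ ≃ₜ ℝ} (g : ℝ ≃ₜ ℝ) (hg : ∀ k x, g (h k x) = h' k (g x))
    (w : List ℕ) (x : ℝ) : g (gr h w x) = gr h' w (g x) := by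
  induction w with
  | nil => rfl
  | cons k w ih =>
    change g (dbl h k (gr h w x)) = dbl h' k (gr h' w (g x))
    rw [← ih]
    unfold dbl
    split_ifs
    · exact hg _ _
    · apply (h' (k / 2)).injective
      rw [← hg, Homeomorph.apply_symm_apply, Homeomorph.apply_symm_apply]

end CNJ

open CNJ

theorem pf_CNJ (hG : T_GPR) (hT : T_TRC) (hH : T_HOM) (hX : T_EXT) (hC : T_CRC) (hU : T_UNI) :
    T_CNJ := by
  intro y y' e e' h h' hy hy' he he' hc hc'
  obtain ⟨k1, k2⟩ := key hH hy he hc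
  obtain ⟨k1', k2'⟩ := key hH hy' he' hc'
  constructor
  · rintro ⟨π, hπ1, hπ2⟩
    have hr : range (e' ∘ π) = range e' := by
      rw [range_comp, π.range_eq_univ, image_univ]
    obtain ⟨g, hg1, hg2⟩ := (hX e (e' ∘ π) he.den (by rw [hr]; exact he'.den)).1 (by
      intro m n
      rw [← he.ord, Function.comp_apply, Function.comp_apply, ← he'.ord]
      unfold lt
      rw [hπ1])
    refine ⟨g, hg1, fun k x => ?_⟩
    have hd : DenseRange e := dense_of_Ds he.den
    have h1 : (fun x => g (h k x)) = fun x => h' k (g x) := by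
      refine hd.equalizer (g.continuous.comp (h k).continuous)
        ((h' k).continuous.comp g.continuous) ?_
      funext m
      change g (h k (e m)) = h' k (g (e m))
      rw [← k1, hg2, hg2, Function.comp_apply, Function.comp_apply, ← hπ2, k1']
    exact congrFun h1 x
  · rintro ⟨g, hg1, hg2⟩
    have hgr := gr_conj g hg2
    have hT1 : CR (gr h) (range e) :=
      (hT (List ℕ) (gr h) (lt y) (wd y.2) e ⟨hG h, he, k2⟩).1 hy.2
    have hT2 : CR (gr h') (range e') :=
      (hT (List ℕ) (gr h') (lt y') (wd y'.2) e' ⟨hG h', he', k2'⟩).1 hy'.2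
    have hT3 : CR (gr h') (range (g ∘ e)) := by
      rw [range_comp]
      exact hC (List ℕ) (gr h) (gr h') g hg1 hgr _ hT1
    obtain ⟨π, hπ1, hπ2⟩ := hU (List ℕ) (gr h') (hG h') (g ∘ e) e' (g.injective.comp he.inj)
      he'.inj (by
        intro p q hpq
        have hlt : g.symm p < g.symm q := by
          rw [← hg1.lt_iff_lt, Homeomorph.apply_symm_apply, Homeomorph.apply_symm_apply]
          exact hpq
        obtain ⟨d, ⟨m, rfl⟩, hd1, hd2⟩ := he.den _ _ hlt
        refine ⟨g (e m), ⟨m, rfl⟩, ?_, ?_⟩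
        · have := hg1 hd1
          rwa [Homeomorph.apply_symm_apply] at this
        · have := hg1 hd2
          rwa [Homeomorph.apply_symm_apply] at this) he'.den (by
        rintro i _ ⟨m, rfl⟩
        refine ⟨wd y.2 i m, ?_⟩
        change g (e (wd y.2 i m)) = gr h' i (g (e m))
        rw [k2, hgr]) (by
        rintro i _ ⟨m, rfl⟩
        exact ⟨wd y'.2 i m, k2' i m⟩) hT3 hT2
    refine ⟨π, fun m n => ?_, fun k m => ?_⟩
    · rw [Bool.eq_iff_iff]
      change lt y' (π m) (π n) ↔ lt y m n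
      rw [he'.ord, he.ord, ← hπ1, Function.comp_apply, Function.comp_apply, hg1.lt_iff_lt]
    · have h1 : gr h' [k] ((g ∘ e) m) = (g ∘ e) (y.2 k m) := by
        change gr h' [k] (g (e m)) = g (e (wd y.2 [k] m))
        rw [k2, hgr]
      have h2 := (hπ2 [k] m (y.2 k m)).1 h1
      rw [← k2'] at h2
      exact he'.inj h2

end Pool.Agent.H30.ALV
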