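import Pool.Agent.H71.AL.Targets

/-!
# Row CTE: there are only countably many special points
-/

set_option autoImplicit false

open Set

open Pool.Agent.AL

namespace Pool.Agent.H30.ALV

namespace CTE

/-- limits of increasing iterations, from below -/
lemma up (f : ℝ → ℝ) (hf : Inc rl f) (y x : ℝ) (h1 : y < x) (h2 : ∀ n : ℕ, f^[n] y < x)
    (h3 : ∀ z, z < x → ∃ n : ℕ, z < f^[n] y) :
    ∃ q : ℚ, (q : ℝ) < x ∧ (∀ n : ℕ, f^[n] q < x) ∧ ∀ z, z < x → ∃ n : ℕ, z < f^[n] q := by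
  have hm : StrictMono f := fun a b h => hf a b h
  obtain ⟨q, hq1, hq2⟩ := exists_rat_btwn h1
  refine ⟨q, hq2, fun n => ?_, fun z hz => ?_⟩
  · obtain ⟨m, hm'⟩ := h3 q hq2
    calc f^[n] q < f^[n] (f^[m] y) := hm.iterate n hm'
      _ = f^[n + m] y := by rw [Function.iterate_add_apply]
      _ < x := h2 _
  · obtain ⟨n, hn⟩ := h3 z hz
    exact ⟨n, hn.trans (hm.iterate n hq1)⟩

/-- limits of increasing iterations, from above -/
lemma down (f : ℝ → ℝ) (hf : Inc rl f) (y x : ℝ) (h1 : x < y) (h2 : ∀ n : ℕ, x < f^[n] y)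
    (h3 : ∀ z, x < z → ∃ n : ℕ, f^[n] y < z) :
    ∃ q : ℚ, x < (q : ℝ) ∧ (∀ n : ℕ, x < f^[n] q) ∧ ∀ z, x < z → ∃ n : ℕ, f^[n] q < z := by
  have hm : StrictMono f := fun a b h => hf a b h
  obtain ⟨q, hq1, hq2⟩ := exists_rat_btwn h1
  refine ⟨q, hq1, fun n => ?_, fun z hz => ?_⟩
  · obtain ⟨m, hm'⟩ := h3 q hq1
    calc x < f^[n + m] y := h2 _
      _ = f^[n] (f^[m] y) := by rw [Function.iterate_add_apply]
      _ < f^[n] q := hm.iterate n hm'
  · obtain ⟨n, hn⟩ := h3 z hz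
    exact ⟨n, (hm.iterate n hq2).trans hn⟩

end CTE

theorem pf_CTE : T_CTE := by
  intro ι _ G _
  have hsub : {x | Es rl G x} ⊆
      ((⋃ (i : ι) (q : ℚ), {x : ℝ | (∀ n : ℕ, (G i)^[n] q < x) ∧
        ∀ z, z < x → ∃ n : ℕ, z < (G i)^[n] q}) ∪
      (⋃ (i : ι) (q : ℚ), {x : ℝ | (∀ n : ℕ, x < (G i)^[n] q) ∧
        ∀ z, x < z → ∃ n : ℕ, (G i)^[n] q < z}) ∪
      (⋃ (i : ι), {x : ℝ | Dec rl (G i) ∧ G i x = x})) ∪
      ((⋃ (q : ℚ), {x : ℝ | ¬ Ws rl G x ∧ (q : ℝ) < x ∧ ∀ z, (q : ℝ) ≤ z → z < x → Ws rl G z}) ∪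
      (⋃ (q : ℚ), {x : ℝ | ¬ Ws rl G x ∧ x < (q : ℝ) ∧
        ∀ z, z ≤ (q : ℝ) → x < z → Ws rl G z})) := by
    intro x hx
    rcases hx with hx | hx
    · left
      rcases hx with ⟨i, y, hi, hl⟩ | ⟨i, hi, hfix⟩
      · left
        rcases hl with ⟨h1, h2, h3⟩ | ⟨h1, h2, h3⟩
        · left
          obtain ⟨q, _, hq2, hq3⟩ := CTE.up (G i) hi y x h1 h2 h3
          exact mem_iUnion₂.2 ⟨i, q, hq2, hq3⟩
        · right
          obtain ⟨q, _, hq2, hq3⟩ := CTE.down (G i) hi y x h1 h2 h3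
          exact mem_iUnion₂.2 ⟨i, q, hq2, hq3⟩
      · right
        exact mem_iUnion.2 ⟨i, hi, hfix⟩
    · right
      obtain ⟨hw, y, hy | hy⟩ := hx
      · left
        obtain ⟨h1, h2⟩ := hy
        obtain ⟨q, hq1, hq2⟩ := exists_rat_btwn h1
        refine mem_iUnion.2 ⟨q, hw, hq2, fun z hz1 hz2 => ?_⟩
        obtain ⟨a, b, hg, -, hz⟩ := h2 z (lt_of_lt_of_le hq1 hz1) hz2
        exact ⟨a, b, hg, hz⟩
      · right
        obtain ⟨h1, h2⟩ := hy
        obtain ⟨q, hq1, hq2⟩ := exists_rat_btwn h1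
        refine mem_iUnion.2 ⟨q, hw, hq1, fun z hz1 hz2 => ?_⟩
        obtain ⟨a, b, hg, -, hz⟩ := h2 z hz2 (lt_of_le_of_lt hz1 hq2)
        exact ⟨a, b, hg, hz⟩
  refine Set.Countable.mono hsub ?_
  refine Set.Countable.union (Set.Countable.union (Set.Countable.union ?_ ?_) ?_)
    (Set.Countable.union ?_ ?_)
  · refine countable_iUnion fun i => countable_iUnion fun q => Set.Subsingleton.countable ?_
    rintro x ⟨hx1, hx2⟩ x' ⟨hx1', hx2'⟩
    rcases lt_trichotomy x x' with h | h | h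
    · obtain ⟨n, hn⟩ := hx2' x h
      exact absurd (hx1 n) (not_lt.2 hn.le)
    · exact h
    · obtain ⟨n, hn⟩ := hx2 x' h
      exact absurd (hx1' n) (not_lt.2 hn.le)
  · refine countable_iUnion fun i => countable_iUnion fun q => Set.Subsingleton.countable ?_
    rintro x ⟨hx1, hx2⟩ x' ⟨hx1', hx2'⟩
    rcases lt_trichotomy x x' with h | h | h
    · obtain ⟨n, hn⟩ := hx2 x' h
      exact absurd (hx1' n) (not_lt.2 hn.le)
    · exact h
    · obtain ⟨n, hn⟩ := hx2' x h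
      exact absurd (hx1 n) (not_lt.2 hn.le)
  · refine countable_iUnion fun i => Set.Subsingleton.countable ?_
    rintro x ⟨hx1, hx2⟩ x' ⟨_, hx2'⟩
    rcases lt_trichotomy x x' with h | h | h
    · have := hx1 x x' h
      rw [hx2, hx2'] at this
      exact absurd this (not_lt.2 h.le)
    · exact h
    · have := hx1 x' x h
      rw [hx2, hx2'] at this
      exact absurd this (not_lt.2 h.le)
  · refine countable_iUnion fun q => Set.Subsingleton.countable ?_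
    rintro x ⟨hx1, hx2, hx3⟩ x' ⟨hx1', hx2', hx3'⟩
    rcases lt_trichotomy x x' with h | h | h
    · exact absurd (hx3' x hx2.le h) hx1
    · exact h
    · exact absurd (hx3 x' hx2'.le h) hx1'
  · refine countable_iUnion fun q => Set.Subsingleton.countable ?_
    rintro x ⟨hx1, hx2, hx3⟩ x' ⟨hx1', hx2', hx3'⟩
    rcases lt_trichotomy x x' with h | h | h
    · exact absurd (hx3 x' hx2'.le h) hx1'
    · exact h
    · exact absurd (hx3' x hx2.le h) hx1

end Pool.Agent.H30.ALV
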