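import Pool.Agent.H71.AL.Targets

/-!
# Row CZM: the coding relation for the circle is Borel
-/

set_option autoImplicit false

open Set

open Pool.Agent.AL

namespace Pool.Agent.H30.ALV

namespace CZM

lemma m_lt {f g : Y → ℕ} (hf : Measurable f) (hg : Measurable g) :
    MeasurableSet {y : Y | lt y (f y) (g y)} := by
  have h : {y : Y | lt y (f y) (g y)} =
      ⋃ m : ℕ, ⋃ n : ℕ, ({y | f y = m} ∩ {y | g y = n}) ∩ {y : Y | y.1 m n = true} := by
    ext y
    simp [lt]
  rw [h]
  refine MeasurableSet.iUnion fun m => MeasurableSet.iUnion fun n =>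
    ((hf (measurableSet_singleton m)).inter (hg (measurableSet_singleton n))).inter ?_
  have h2 : Measurable fun y : Y => y.1 m n :=
    (measurable_pi_apply n).comp ((measurable_pi_apply m).comp measurable_fst)
  exact h2 (measurableSet_singleton true)

lemma m_ev (k m : ℕ) : Measurable fun y : Y => y.2 k m :=
  (measurable_pi_apply m).comp ((measurable_pi_apply k).comp measurable_snd)

lemma m_ap {f : Y → ℕ} (hf : Measurable f) (k : ℕ) : Measurable fun y : Y => y.2 k (f y) := by
  refine measurable_to_countable' fun n => ?_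
  have h : (fun y : Y => y.2 k (f y)) ⁻¹' {n} = ⋃ m : ℕ, {y | f y = m} ∩ {y : Y | y.2 k m = n} := by
    ext y
    simp
  rw [h]
  exact MeasurableSet.iUnion fun m => (hf (measurableSet_singleton m)).inter
    (m_ev k m (measurableSet_singleton n))

lemma m_it (a n : ℕ) : Measurable fun y : Y => (y.2 0)^[n] a := by
  induction n with
  | zero => exact measurable_const
  | succ n ih =>
    simp only [Function.iterate_succ_apply']
    exact m_ap ih 0

end CZM

open CZM

theorem pf_CZM (hM : T_MES) (hM1 : T_MCD) : T_CZM := by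
  have hSp : MeasurableSet {y : Y | Sp y} := by
    have h : {y : Y | Sp y} = {y : Y | Cy y} ∩
        ((⋂ (k : ℕ) (a : ℕ) (b : ℕ), {y : Y | lt y a b}ᶜ ∪
          {y : Y | lt y (y.2 (2 * k) a) (y.2 (2 * k) b)}) ∩
        ((⋂ (k : ℕ) (m : ℕ), {y : Y | y.2 0 (y.2 (2 * k) m) = y.2 (2 * k) (y.2 0 m)}) ∩
        ((⋂ (a : ℕ) (b : ℕ), ⋃ n : ℕ, {y : Y | lt y b ((y.2 0)^[n] a)}) ∩
        ((⋂ (k : ℕ) (m : ℕ), {y : Y | lt y (y.2 (2 * (k + 1)) m) m}ᶜ) ∩
        (⋂ k : ℕ, ⋃ m : ℕ, {y : Y | lt y (y.2 (2 * (k + 1)) m) (y.2 0 m)}))))) := by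
      ext y
      constructor
      · intro hy
        refine ⟨hy.cy, ?_, ?_, ?_, ?_, ?_⟩
        · simp only [mem_iInter]
          intro k a b
          by_cases hab : lt y a b
          · right
            exact hy.inc k a b hab
          · left
            exact hab
        · simp only [mem_iInter]
          intro k m
          exact hy.com k m
        · simp only [mem_iInter, mem_iUnion]
          intro a b
          exact hy.cof a b
        · simp only [mem_iInter]
          intro k m
          exact hy.nor k m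
        · simp only [mem_iInter, mem_iUnion]
          intro k
          exact hy.nor' k
      · rintro ⟨h1, h2, h3, h4, h5, h6⟩
        simp only [mem_iInter, mem_iUnion] at h2 h3 h4 h5 h6
        refine ⟨h1, ?_, h3, h4, h5, h6⟩
        intro k a b hab
        rcases h2 k a b with h | h
        · exact absurd hab h
        · exact h
    rw [h]
    refine hM.inter (MeasurableSet.inter ?_ (MeasurableSet.inter ?_ (MeasurableSet.inter ?_
      (MeasurableSet.inter ?_ ?_))))
    · refine MeasurableSet.iInter fun k => MeasurableSet.iInter fun a =>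
        MeasurableSet.iInter fun b => MeasurableSet.union ?_ ?_
      · exact (m_lt measurable_const measurable_const).compl
      · exact m_lt (m_ev _ _) (m_ev _ _)
    · refine MeasurableSet.iInter fun k => MeasurableSet.iInter fun m => ?_
      exact measurableSet_eq_fun (m_ap (m_ev _ _) 0) (m_ap (m_ev _ _) (2 * k))
    · refine MeasurableSet.iInter fun a => MeasurableSet.iInter fun b =>
        MeasurableSet.iUnion fun n => ?_
      exact m_lt measurable_const (m_it a n)
    · refine MeasurableSet.iInter fun k => MeasurableSet.iInter fun m => ?_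
      exact (m_lt (m_ev _ _) measurable_const).compl
    · refine MeasurableSet.iInter fun k => MeasurableSet.iUnion fun m => ?_
      exact m_lt (m_ev _ _) (m_ev _ _)
  refine ⟨hSp, ?_⟩
  let Φ : Y × ((ℕ → ℚ → ℝ) × (ℕ → ℝ) × (ℕ → ℤ)) → Y × ((ℕ → ℚ → ℝ) × (ℕ → ℝ)) :=
    fun p => (p.1, (fun k q => match k with
      | 0 => (q : ℝ) + 1
      | k + 1 => p.2.1 k q - p.2.2.2 k), p.2.2.1)
  have hΦ : Measurable Φ := by
    refine measurable_fst.prodMk (Measurable.prodMk ?_ (measurable_fst.comp
      (measurable_snd.comp measurable_snd)))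
    refine measurable_pi_iff.2 fun k => measurable_pi_iff.2 fun q => ?_
    cases k with
    | zero => exact measurable_const
    | succ k =>
      refine Measurable.sub ?_ ?_
      · exact (measurable_pi_apply q).comp ((measurable_pi_apply k).comp
          (measurable_fst.comp measurable_snd))
      · exact (measurable_from_top (f := fun z : ℤ => (z : ℝ))).comp ((measurable_pi_apply k).comp
          (measurable_snd.comp (measurable_snd.comp measurable_snd)))
  have h : {p : Y × ((ℕ → ℚ → ℝ) × (ℕ → ℝ) × (ℕ → ℤ)) | Cz p.1 p.2.1 p.2.2.1 p.2.2.2} =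
      (Prod.fst ⁻¹' {y : Y | Sp y}) ∩ ((Φ ⁻¹' {p : Y × ((ℕ → ℚ → ℝ) × (ℕ → ℝ)) |
        Em (lt p.1) p.2.2 ∧ Cd p.1 p.2.1 p.2.2}) ∩
      ⋂ m : ℕ, ⋃ n : ℕ, {p | p.1.2 0 m = n} ∩ {p | p.2.2.1 n = p.2.2.1 m + 1}) := by
    ext p
    constructor
    · rintro ⟨h1, h2, h3, h4⟩
      refine ⟨h1, ⟨h2, h4⟩, ?_⟩
      simp only [mem_iInter, mem_iUnion]
      intro m
      exact ⟨_, rfl, h3 m⟩
    · rintro ⟨h1, ⟨h2, h4⟩, h3⟩
      simp only [mem_iInter, mem_iUnion] at h3
      refine ⟨h1, h2, fun m => ?_, h4⟩
      obtain ⟨n, hn, hn'⟩ := h3 m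
      have e1 : p.1.2 0 m = n := hn
      rw [e1]
      exact hn'
  rw [h]
  refine (measurable_fst hSp).inter ((hΦ hM1).inter ?_)
  refine MeasurableSet.iInter fun m => MeasurableSet.iUnion fun n => MeasurableSet.inter ?_ ?_
  · exact ((m_ev 0 m).comp measurable_fst) (measurableSet_singleton n)
  · refine measurableSet_eq_fun ?_ (Measurable.add ?_ measurable_const)
    · exact (measurable_pi_apply n).comp (measurable_fst.comp (measurable_snd.comp measurable_snd))
    · exact (measurable_pi_apply m).comp (measurable_fst.comp (measurable_snd.comp measurable_snd))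

end Pool.Agent.H30.ALV
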